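import Pool.Agent.W889.SR.Stm

/-!
# Closure properties of the infinitary formulas in normal form
-/

set_option autoImplicit false

namespace Pool.Agent.W196.SR

open Pool.Agent.W889.SR

/-- conjunction of a list -/
def conjL {n : ℕ} : List (QF n) → QF n
  | [] => .tru
  | a :: l => .and a (conjL l)

lemma conjL_realize {n : ℕ} {A : Type} (r : A → A → Prop) (v : Fin n → A) (l : List (QF n)) :
    (conjL l).Realize r v ↔ ∀ φ ∈ l, φ.Realize r v := by
  induction l with
  | nil => simp [conjL, QF.Realize]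
  | cons a l ih =>
    simp only [conjL, QF.Realize, ih, List.mem_cons, forall_eq_or_imp]

open Classical in
/-- the quantifier free type -/
noncomputable def tpf (n : ℕ) (P E : Fin n → Fin n → Prop) : QF n :=
  .and (conjL ((List.finRange n).map fun i => conjL ((List.finRange n).map fun j =>
      if P i j then .le i j else .neg (.le i j))))
    (conjL ((List.finRange n).map fun i => conjL ((List.finRange n).map fun j =>
      if E i j then .eq i j else .neg (.eq i j))))

lemma tpf_realize (n : ℕ) (P E : Fin n → Fin n → Prop) (A : Type) (r : A → A → Prop)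
    (v : Fin n → A) : (tpf n P E).Realize r v ↔
      ((∀ i j, r (v i) (v j) ↔ P i j) ∧ ∀ i j, v i = v j ↔ E i j) := by
  unfold tpf
  simp only [QF.Realize, conjL_realize, List.mem_map, List.mem_finRange, true_and,
    forall_exists_index, forall_apply_eq_imp_iff]
  constructor
  · rintro ⟨h1, h2⟩
    refine ⟨fun i j => ?_, fun i j => ?_⟩
    · have := h1 i j
      by_cases hP : P i j
      · rw [if_pos hP] at this
        exact ⟨fun _ => hP, fun _ => this⟩
      · rw [if_neg hP] at this
        exact ⟨fun h => absurd h this, fun h => absurd h hP⟩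
    · have := h2 i j
      by_cases hP : E i j
      · rw [if_pos hP] at this
        exact ⟨fun _ => hP, fun _ => this⟩
      · rw [if_neg hP] at this
        exact ⟨fun h => absurd h this, fun h => absurd h hP⟩
  · rintro ⟨h1, h2⟩
    refine ⟨fun i j => ?_, fun i j => ?_⟩
    · by_cases hP : P i j
      · rw [if_pos hP]
        exact (h1 i j).2 hP
      · rw [if_neg hP]
        exact fun h => hP ((h1 i j).1 h)
    · by_cases hP : E i j
      · rw [if_pos hP]
        exact (h2 i j).2 hP
      · rw [if_neg hP]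
        exact fun h => hP ((h2 i j).1 h)

/-- negation -/
def ng : {n : ℕ} → Fml n → Fml n
  | _, .qf φ => .qf (.neg φ)
  | _, .disj k φ => .conj k (fun i => ng (φ i))
  | _, .conj k φ => .disj k (fun i => ng (φ i))

lemma ng_real {n : ℕ} (φ : Fml n) (A : Type) (r : A → A → Prop) (v : Fin n → A) :
    (ng φ).Realize r v ↔ ¬ φ.Realize r v := by
  induction φ with
  | qf φ => simp [ng, Fml.Realize, QF.Realize]
  | disj k φ ih =>
    simp only [ng, Fml.Realize, ih, not_exists]
  | conj k φ ih =>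
    simp only [ng, Fml.Realize, ih, not_forall]

lemma ng_lv {n : ℕ} (φ : Fml n) : ∀ (b : Bool) (α : Ordinal.{0}), φ.Lv b α → (ng φ).Lv (!b) α := by
  induction φ with
  | qf φ => intro b α h; simp [ng, Fml.Lv]
  | disj k φ ih =>
    intro b α h
    cases b with
    | true =>
      simp only [ng, Fml.Lv, Bool.not_true] at h ⊢
      intro i
      obtain ⟨β, hβ, h1⟩ := h i
      exact ⟨β, hβ, ih i false β h1⟩
    | false => simp only [Fml.Lv] at h
  | conj k φ ih =>
    intro b α h
    cases b with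
    | false =>
      simp only [ng, Fml.Lv, Bool.not_false] at h ⊢
      intro i
      obtain ⟨β, hβ, h1⟩ := h i
      exact ⟨β, hβ, ih i true β h1⟩
    | true => simp only [Fml.Lv] at h

/-- renaming of the variables of a quantifier free formula -/
def rq {n m : ℕ} (u : Fin n → Fin m) : QF n → QF m
  | .tru => .tru
  | .le i j => .le (u i) (u j)
  | .eq i j => .eq (u i) (u j)
  | .neg φ => .neg (rq u φ)
  | .and φ ψ => .and (rq u φ) (rq u ψ)

lemma rq_real {n m : ℕ} (u : Fin n → Fin m) (φ : QF n) (A : Type) (r : A → A → Prop)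
    (v : Fin m → A) : (rq u φ).Realize r v ↔ φ.Realize r (v ∘ u) := by
  induction φ with
  | tru => simp [rq, QF.Realize]
  | le i j => simp [rq, QF.Realize]
  | eq i j => simp [rq, QF.Realize]
  | neg φ ih => simp [rq, QF.Realize, ih]
  | and φ ψ ih1 ih2 => simp [rq, QF.Realize, ih1, ih2]

/-- extension of a renaming to `k` more variables -/
def up {n m : ℕ} (u : Fin n → Fin m) (k : ℕ) : Fin (n + k) → Fin (m + k) :=
  Fin.addCases (fun i => Fin.castAdd k (u i)) (fun j => Fin.natAdd m j)

lemma append_up {n m : ℕ} (u : Fin n → Fin m) (k : ℕ) {A : Type} (v : Fin m → A) (w : Fin k → A) :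
    Fin.append v w ∘ up u k = Fin.append (v ∘ u) w := by
  funext x
  refine Fin.addCases (fun i => ?_) (fun j => ?_) x
  · simp [up, Fin.addCases_left, Fin.append_left]
  · simp [up, Fin.addCases_right, Fin.append_right]

/-- renaming -/
def rn : {n : ℕ} → Fml n → (m : ℕ) → (Fin n → Fin m) → Fml m
  | _, .qf φ, _, u => .qf (rq u φ)
  | _, .disj k φ, m, u => .disj k (fun i => rn (φ i) (m + k i) (up u (k i)))
  | _, .conj k φ, m, u => .conj k (fun i => rn (φ i) (m + k i) (up u (k i)))

lemma rn_real {n : ℕ} (φ : Fml n) : ∀ (m : ℕ) (u : Fin n → Fin m) (A : Type) (r : A → A → Prop)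
    (v : Fin m → A), (rn φ m u).Realize r v ↔ φ.Realize r (v ∘ u) := by
  induction φ with
  | qf φ => intro m u A r v; simp [rn, Fml.Realize, rq_real]
  | disj k φ ih =>
    intro m u A r v
    simp only [rn, Fml.Realize, ih, append_up]
  | conj k φ ih =>
    intro m u A r v
    simp only [rn, Fml.Realize, ih, append_up]

lemma rn_lv {n : ℕ} (φ : Fml n) : ∀ (m : ℕ) (u : Fin n → Fin m) (b : Bool) (α : Ordinal.{0}),
    φ.Lv b α → (rn φ m u).Lv b α := by
  induction φ with
  | qf φ => intro m u b α h; simp [rn, Fml.Lv]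
  | disj k φ ih =>
    intro m u b α h
    cases b with
    | true =>
      simp only [rn, Fml.Lv] at h ⊢
      intro i
      obtain ⟨β, hβ, h1⟩ := h i
      exact ⟨β, hβ, ih i _ _ false β h1⟩
    | false => simp only [Fml.Lv] at h
  | conj k φ ih =>
    intro m u b α h
    cases b with
    | false =>
      simp only [rn, Fml.Lv] at h ⊢
      intro i
      obtain ⟨β, hβ, h1⟩ := h i
      exact ⟨β, hβ, ih i _ _ true β h1⟩
    | true => simp only [Fml.Lv] at h

lemma mono' {n : ℕ} (φ : Fml n) (b : Bool) (α α' : Ordinal.{0}) (h : α ≤ α') (hφ : φ.Lv b α) :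
    φ.Lv b α' := by
  cases φ with
  | qf φ => simp [Fml.Lv]
  | disj k φ =>
    cases b with
    | true =>
      simp only [Fml.Lv] at hφ ⊢
      intro i
      obtain ⟨β, hβ, h1⟩ := hφ i
      exact ⟨β, lt_of_lt_of_le hβ h, h1⟩
    | false => simp only [Fml.Lv] at hφ
  | conj k φ =>
    cases b with
    | false =>
      simp only [Fml.Lv] at hφ ⊢
      intro i
      obtain ⟨β, hβ, h1⟩ := hφ i
      exact ⟨β, lt_of_lt_of_le hβ h, h1⟩
    | true => simp only [Fml.Lv] at hφ

lemma append_zero {n : ℕ} {A : Type} (v : Fin n → A) (w : Fin 0 → A) :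
    (Fin.append v w : Fin (n + 0) → A) = v := by
  funext x
  have : x = Fin.castAdd 0 x := rfl
  rw [this, Fin.append_left]
  rfl

lemma lift' {n : ℕ} (φ : Fml n) (b : Bool) : ∃ φ' : Fml n,
    (∀ α α', α < α' → φ.Lv b α → φ'.Lv (!b) α') ∧
    ∀ (A : Type) (r : A → A → Prop) (v : Fin n → A), φ'.Realize r v ↔ φ.Realize r v := by
  cases b with
  | true =>
    refine ⟨.conj (fun _ => 0) (fun _ => (φ : Fml (n + 0))), ?_, ?_⟩
    · intro α α' h hφ
      simp only [Bool.not_true, Fml.Lv]
      intro _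
      exact ⟨α, h, hφ⟩
    · intro A r v
      simp only [Fml.Realize]
      constructor
      · intro h
        have := h 0 Fin.elim0
        rwa [append_zero] at this
      · intro h i w
        rw [append_zero]
        exact h
  | false =>
    refine ⟨.disj (fun _ => 0) (fun _ => (φ : Fml (n + 0))), ?_, ?_⟩
    · intro α α' h hφ
      simp only [Bool.not_false, Fml.Lv]
      intro _
      exact ⟨α, h, hφ⟩
    · intro A r v
      simp only [Fml.Realize]
      constructor
      · rintro ⟨i, w, h⟩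
        rwa [append_zero] at h
      · intro h
        refine ⟨0, Fin.elim0, ?_⟩
        rw [append_zero]
        exact h

/-- every `Π_α` formula, `α ≥ 1`, is a conjunction -/
lemma toConj {α : Ordinal.{0}} (hα : 1 ≤ α) {n : ℕ} (φ : Fml n) (h : φ.Lv false α) :
    ∃ (k : ℕ → ℕ) (ψ : (i : ℕ) → Fml (n + k i)), (∀ i, ∃ β < α, (ψ i).Lv true β) ∧
      ∀ (A : Type) (r : A → A → Prop) (v : Fin n → A),
        (∀ i, ∀ w : Fin (k i) → A, (ψ i).Realize r (Fin.append v w)) ↔ φ.Realize r v := by
  cases φ with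
  | qf φ =>
    refine ⟨fun _ => 0, fun _ => (.qf φ : Fml (n + 0)), fun i => ⟨0, ?_, by simp [Fml.Lv]⟩, ?_⟩
    · exact lt_of_lt_of_le zero_lt_one hα
    · intro A r v
      constructor
      · intro h
        have := h 0 Fin.elim0
        rwa [append_zero] at this
      · intro h i w
        rw [append_zero]
        exact h
  | disj k φ => simp only [Fml.Lv] at h
  | conj k φ =>
    refine ⟨k, φ, ?_, ?_⟩
    · simpa only [Fml.Lv] using h
    · intro A r v
      simp only [Fml.Realize]

lemma conj' (α : Ordinal.{0}) (hα : 1 ≤ α) (n : ℕ) (φ : ℕ → Fml n)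
    (hφ : ∀ i, (φ i).Lv false α) :
    ∃ φ' : Fml n, φ'.Lv false α ∧ ∀ (A : Type) (r : A → A → Prop) (v : Fin n → A),
      φ'.Realize r v ↔ ∀ i, (φ i).Realize r v := by
  choose k ψ h1 h2 using fun i => toConj hα (φ i) (hφ i)
  refine ⟨.conj (fun m => k m.unpair.1 m.unpair.2) (fun m => ψ m.unpair.1 m.unpair.2), ?_, ?_⟩
  · simp only [Fml.Lv]
    intro m
    exact h1 _ _
  · intro A r v
    simp only [Fml.Realize, ← h2]
    constructor
    · intro h i j w
      obtain ⟨m, hm⟩ := Nat.surjective_unpair (i, j)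
      have := h m
      rw [hm] at this
      exact this w
    · intro h m w
      exact h _ _ w

lemma disj' (α : Ordinal.{0}) (hα : 1 ≤ α) (n : ℕ) (φ : ℕ → Fml n)
    (hφ : ∀ i, (φ i).Lv true α) :
    ∃ φ' : Fml n, φ'.Lv true α ∧ ∀ (A : Type) (r : A → A → Prop) (v : Fin n → A),
      φ'.Realize r v ↔ ∃ i, (φ i).Realize r v := by
  obtain ⟨χ, h1, h2⟩ := conj' α hα n (fun i => ng (φ i)) (fun i => ng_lv (φ i) true α (hφ i))
  refine ⟨ng χ, ng_lv χ false α h1, fun A r v => ?_⟩
  rw [ng_real, h2]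
  simp only [ng_real]
  push Not
  exact Iff.rfl

lemma append_assoc' {n k k' : ℕ} {A : Type} (v : Fin n → A) (w : Fin k → A) (w' : Fin k' → A) :
    Fin.append v (Fin.append w w') ∘ Fin.cast (add_assoc n k k') =
      Fin.append (Fin.append v w) w' := by
  funext x
  rw [Fin.append_assoc]

lemma append_split {k k' : ℕ} {A : Type} (w : Fin (k + k') → A) :
    ∃ (w1 : Fin k → A) (w2 : Fin k' → A), w = Fin.append w1 w2 := by
  refine ⟨fun i => w (Fin.castAdd k' i), fun j => w (Fin.natAdd k j), ?_⟩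
  exact (Fin.append_castAdd_natAdd (f := w)).symm

lemma all' (α : Ordinal.{0}) (hα : 1 ≤ α) (n k : ℕ) (φ : Fml (n + k)) (hφ : φ.Lv false α) :
    ∃ φ' : Fml n, φ'.Lv false α ∧ ∀ (A : Type) (r : A → A → Prop) (v : Fin n → A),
      φ'.Realize r v ↔ ∀ w : Fin k → A, φ.Realize r (Fin.append v w) := by
  obtain ⟨k', ψ, h1, h2⟩ := toConj hα φ hφ
  refine ⟨.conj (fun i => k + k' i) (fun i => rn (ψ i) (n + (k + k' i)) (Fin.cast (add_assoc n k (k' i)))),
    ?_, ?_⟩
  · simp only [Fml.Lv]
    intro i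
    obtain ⟨β, hβ, h3⟩ := h1 i
    exact ⟨β, hβ, rn_lv _ _ _ _ _ h3⟩
  · intro A r v
    simp only [Fml.Realize, rn_real, ← h2]
    constructor
    · intro h w i w'
      have := h i (Fin.append w w')
      rwa [append_assoc'] at this
    · intro h i w
      obtain ⟨w1, w2, rfl⟩ := append_split w
      rw [append_assoc']
      exact h w1 i w2

lemma ex' (α : Ordinal.{0}) (hα : 1 ≤ α) (n k : ℕ) (φ : Fml (n + k)) (hφ : φ.Lv true α) :
    ∃ φ' : Fml n, φ'.Lv true α ∧ ∀ (A : Type) (r : A → A → Prop) (v : Fin n → A),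
      φ'.Realize r v ↔ ∃ w : Fin k → A, φ.Realize r (Fin.append v w) := by
  obtain ⟨χ, h1, h2⟩ := all' α hα n k (ng φ) (ng_lv φ true α hφ)
  refine ⟨ng χ, ng_lv χ false α h1, fun A r v => ?_⟩
  rw [ng_real, h2]
  simp only [ng_real]
  push Not
  rfl

/-- a formula of level zero is quantifier free -/
lemma lv_zero {b : Bool} {n : ℕ} (φ : Fml n) (h : φ.Lv b 0) : ∃ ψ : QF n, φ = .qf ψ := by
  cases φ with
  | qf φ => exact ⟨φ, rfl⟩
  | disj k φ =>
    cases b with
    | true =>
      simp only [Fml.Lv] at h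
      obtain ⟨β, hβ, -⟩ := h 0
      exact absurd hβ (not_lt_of_ge bot_le)
    | false => simp only [Fml.Lv] at h
  | conj k φ =>
    cases b with
    | false =>
      simp only [Fml.Lv] at h
      obtain ⟨β, hβ, -⟩ := h 0
      exact absurd hβ (not_lt_of_ge bot_le)
    | true => simp only [Fml.Lv] at h

lemma andF (α : Ordinal.{0}) (n : ℕ) (φ ψ : Fml n) (hφ : φ.Lv false α) (hψ : ψ.Lv false α) :
    ∃ φ' : Fml n, φ'.Lv false α ∧ ∀ (A : Type) (r : A → A → Prop) (v : Fin n → A),
      φ'.Realize r v ↔ (φ.Realize r v ∧ ψ.Realize r v) := by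
  rcases eq_or_ne α 0 with rfl | h0
  · obtain ⟨φ0, rfl⟩ := lv_zero φ hφ
    obtain ⟨ψ0, rfl⟩ := lv_zero ψ hψ
    refine ⟨.qf (.and φ0 ψ0), by simp [Fml.Lv], fun A r v => ?_⟩
    simp [Fml.Realize, QF.Realize]
  · have hα : 1 ≤ α := Order.one_le_iff_ne_zero.2 h0
    obtain ⟨χ, h1, h2⟩ := conj' α hα n (fun i => if i = 0 then φ else ψ) (fun i => by
      split_ifs
      · exact hφ
      · exact hψ)
    refine ⟨χ, h1, fun A r v => ?_⟩
    rw [h2]
    constructor
    · intro h
      exact ⟨by simpa using h 0, by simpa using h 1⟩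
    · rintro ⟨h3, h4⟩ i
      split_ifs
      · exact h3
      · exact h4

lemma orT (α : Ordinal.{0}) (n : ℕ) (φ ψ : Fml n) (hφ : φ.Lv true α) (hψ : ψ.Lv true α) :
    ∃ φ' : Fml n, φ'.Lv true α ∧ ∀ (A : Type) (r : A → A → Prop) (v : Fin n → A),
      φ'.Realize r v ↔ (φ.Realize r v ∨ ψ.Realize r v) := by
  obtain ⟨χ, h1, h2⟩ := andF α n (ng φ) (ng ψ) (ng_lv φ true α hφ) (ng_lv ψ true α hψ)
  refine ⟨ng χ, ng_lv χ false α h1, fun A r v => ?_⟩
  rw [ng_real, h2, ng_real, ng_real]
  tauto

lemma append_left' {n k k' : ℕ} {A : Type} (v : Fin n → A) (w : Fin k → A) (w' : Fin k' → A) :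
    Fin.append v (Fin.append w w') ∘ Fin.addCases (fun i => Fin.castAdd (k + k') i)
      (fun j => Fin.natAdd n (Fin.castAdd k' j)) = Fin.append v w := by
  funext x
  refine Fin.addCases (fun i => ?_) (fun j => ?_) x
  · simp [Fin.addCases_left, Fin.append_left]
  · simp [Fin.addCases_right, Fin.append_right, Fin.append_left]

lemma append_right' {n k k' : ℕ} {A : Type} (v : Fin n → A) (w : Fin k → A) (w' : Fin k' → A) :
    Fin.append v (Fin.append w w') ∘ Fin.addCases (fun i => Fin.castAdd (k + k') i)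
      (fun j => Fin.natAdd n (Fin.natAdd k j)) = Fin.append v w' := by
  funext x
  refine Fin.addCases (fun i => ?_) (fun j => ?_) x
  · simp [Fin.addCases_left, Fin.append_left]
  · simp [Fin.addCases_right, Fin.append_right]

lemma orF (α : Ordinal.{0}) (n : ℕ) (φ ψ : Fml n) (hφ : φ.Lv false α) (hψ : ψ.Lv false α) :
    ∃ φ' : Fml n, φ'.Lv false α ∧ ∀ (A : Type) (r : A → A → Prop) (v : Fin n → A),
      φ'.Realize r v ↔ (φ.Realize r v ∨ ψ.Realize r v) := by
  rcases eq_or_ne α 0 with rfl | h0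
  · obtain ⟨φ0, rfl⟩ := lv_zero φ hφ
    obtain ⟨ψ0, rfl⟩ := lv_zero ψ hψ
    refine ⟨.qf (.neg (.and (.neg φ0) (.neg ψ0))), by simp [Fml.Lv], fun A r v => ?_⟩
    simp only [Fml.Realize, QF.Realize]
    tauto
  · have hα : 1 ≤ α := Order.one_le_iff_ne_zero.2 h0
    obtain ⟨k, φ1, h1, h2⟩ := toConj hα φ hφ
    obtain ⟨k', ψ1, h1', h2'⟩ := toConj hα ψ hψ
    have hor : ∀ i j : ℕ, ∃ χ : Fml (n + (k i + k' j)), (∃ β < α, χ.Lv true β) ∧
        ∀ (A : Type) (r : A → A → Prop) (v : Fin n → A) (w : Fin (k i) → A) (w' : Fin (k' j) → A),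
          χ.Realize r (Fin.append v (Fin.append w w')) ↔
            ((φ1 i).Realize r (Fin.append v w) ∨ (ψ1 j).Realize r (Fin.append v w')) := by
      intro i j
      obtain ⟨β, hβ, h3⟩ := h1 i
      obtain ⟨β', hβ', h3'⟩ := h1' j
      obtain ⟨χ, h4, h5⟩ := orT (max β β') _
        (rn (φ1 i) (n + (k i + k' j)) (Fin.addCases (fun i' => Fin.castAdd (k i + k' j) i')
          (fun j' => Fin.natAdd n (Fin.castAdd (k' j) j'))))
        (rn (ψ1 j) (n + (k i + k' j)) (Fin.addCases (fun i' => Fin.castAdd (k i + k' j) i')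
          (fun j' => Fin.natAdd n (Fin.natAdd (k i) j'))))
        (mono' _ _ _ _ (le_max_left _ _) (rn_lv _ _ _ _ _ h3))
        (mono' _ _ _ _ (le_max_right _ _) (rn_lv _ _ _ _ _ h3'))
      refine ⟨χ, ⟨_, max_lt hβ hβ', h4⟩, fun A r v w w' => ?_⟩
      rw [h5, rn_real, rn_real, append_left', append_right']
    choose χ hχ1 hχ2 using hor
    refine ⟨.conj (fun m => k m.unpair.1 + k' m.unpair.2) (fun m => χ m.unpair.1 m.unpair.2),
      ?_, ?_⟩
    · simp only [Fml.Lv]
      intro m
      exact hχ1 _ _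
    · intro A r v
      simp only [Fml.Realize, ← h2, ← h2']
      constructor
      · intro h
        by_contra hcon
        push Not at hcon
        obtain ⟨⟨i, w, hi⟩, ⟨j, w', hj⟩⟩ := hcon
        obtain ⟨m, hm⟩ := Nat.surjective_unpair (i, j)
        have h3 := h m
        rw [hm] at h3
        have h4 := (hχ2 i j A r v w w').1 (h3 (Fin.append w w'))
        exact h4.elim hi hj
      · intro h m w
        obtain ⟨w1, w2, rfl⟩ := append_split w
        rw [hχ2]
        rcases h with h | h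
        · exact Or.inl (h _ _)
        · exact Or.inr (h _ _)

lemma andT (α : Ordinal.{0}) (n : ℕ) (φ ψ : Fml n) (hφ : φ.Lv true α) (hψ : ψ.Lv true α) :
    ∃ φ' : Fml n, φ'.Lv true α ∧ ∀ (A : Type) (r : A → A → Prop) (v : Fin n → A),
      φ'.Realize r v ↔ (φ.Realize r v ∧ ψ.Realize r v) := by
  obtain ⟨χ, h1, h2⟩ := orF α n (ng φ) (ng ψ) (ng_lv φ true α hφ) (ng_lv ψ true α hψ)
  refine ⟨ng χ, ng_lv χ false α h1, fun A r v => ?_⟩
  rw [ng_real, h2, ng_real, ng_real]
  tauto

/-- **closure properties of the infinitary formulas** -/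
theorem fm : FM where
  qf := fun n P E => ⟨tpf n P E, tpf_realize n P E⟩
  neg := fun _ φ => ⟨ng φ, ng_lv φ, ng_real φ⟩
  re := fun _ m u φ => ⟨rn φ m u, rn_lv φ m u, rn_real φ m u⟩
  mono := fun _ φ b α α' h hφ => mono' φ b α α' h hφ
  lift := fun _ φ b => lift' φ b
  conj := conj'
  disj := disj'
  all := all'
  ex := ex'
  or := fun b α n φ ψ hφ hψ => by
    cases b with
    | true => exact orT α n φ ψ hφ hψ
    | false => exact orF α n φ ψ hφ hψ
  and := fun b α n φ ψ hφ hψ => by
    cases b with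
    | true => exact andT α n φ ψ hφ hψ
    | false => exact andF α n φ ψ hφ hψ

end Pool.Agent.W196.SR
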