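import Mathlib
import Pool.Agent.W889.SR.Stm2

/-!
SR2-SUM: trees with prescribed cones at the children of the root.
-/

set_option autoImplicit false

namespace Pool.Agent.W196.SR

open Set Pool.Agent.W889.SR

section

variable {J : Type} {X : J → Type} (r : (j : J) → X j → X j → Prop) (h : (j : J) → X j)

/-- the cones -/
abbrev Cn (j : J) : Type := {z : X j // r j (h j) z}

/-- the underlying set of the sum -/
abbrev YY : Type := Option (Σ j : J, ℕ × Cn r h j)

/-- the order of the sum -/
inductive S : YY r h → YY r h → Prop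
  | bot (y : YY r h) : S none y
  | up (j : J) (n : ℕ) (z z' : Cn r h j) (hz : r j z.1 z'.1) :
      S (some ⟨j, n, z⟩) (some ⟨j, n, z'⟩)

variable {r h}

theorem S_none {y : YY r h} (hy : S r h y none) : y = none := by
  cases hy
  rfl

theorem S_tree (hr : ∀ j, IsTree (r j)) : IsTree (S r h) where
  refl x := by
    rcases x with _ | ⟨j, n, z⟩
    · exact .bot _
    · exact .up j n z z ((hr j).refl _)
  antisymm x y h1 h2 := by
    cases h1 with
    | bot y => exact (S_none h2).symm
    | up j n z z' hz =>
      cases h2 with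
      | up _ _ _ _ hz' =>
        have : z = z' := Subtype.ext ((hr j).antisymm _ _ hz hz')
        rw [this]
  trans x y z h1 h2 := by
    cases h1 with
    | bot y => exact .bot _
    | up j n a b hab =>
      cases h2 with
      | up _ _ _ c hbc => exact .up j n a c ((hr j).trans _ _ _ hab hbc)
  root := ⟨none, fun x => .bot x⟩
  fin x := by
    rcases x with _ | ⟨j, n, z⟩
    · apply (Set.finite_singleton (none : YY r h)).subset
      intro y hy
      exact S_none hy
    · have hf : {z' : Cn r h j | r j z'.1 z.1}.Finite :=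
        Set.Finite.preimage (Subtype.val_injective.injOn) ((hr j).fin z.1)
      apply ((Set.finite_singleton (none : YY r h)).union
        (hf.image (fun z' : Cn r h j => (some ⟨j, n, z'⟩ : YY r h)))).subset
      intro y hy
      have hy' : S r h y (some ⟨j, n, z⟩) := hy
      cases hy' with
      | bot => exact Or.inl rfl
      | up _ _ z' _ hz' => exact Or.inr ⟨z', hz', rfl⟩
  chain x y z h1 h2 := by
    cases h1 with
    | bot => exact Or.inl (.bot _)
    | up j n a b hab =>
      cases h2 with
      | bot => exact Or.inr (.bot _)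
      | up _ _ c _ hcb =>
        rcases (hr j).chain _ _ _ hab hcb with h3 | h3
        · exact Or.inl (.up j n a c h3)
        · exact Or.inr (.up j n c a h3)

end

theorem sum : SUM_stmt := by
  intro hL J _ X _ r h hr
  refine ⟨YY r h, inferInstance, S r h, none,
    fun j n => some ⟨j, n, ⟨h j, (hr j).refl _⟩⟩, S_tree hr, fun y => .bot y, ?_, ?_, ?_⟩
  · intro y
    constructor
    · rintro ⟨-, h2, h3⟩
      rcases y with _ | ⟨j, n, z⟩
      · exact absurd rfl h2
      · refine ⟨j, n, ?_⟩
        rcases h3 (some ⟨j, n, ⟨h j, (hr j).refl _⟩⟩) (.bot _) (.up j n _ z z.2) with h4 | h4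
        · exact absurd h4 (by simp)
        · exact h4
    · rintro ⟨j, n, rfl⟩
      refine ⟨.bot _, by simp, fun z _ hz => ?_⟩
      cases hz with
      | bot => exact Or.inl rfl
      | up _ _ a _ ha =>
        right
        have : a = ⟨h j, (hr j).refl _⟩ := Subtype.ext ((hr j).antisymm _ _ ha a.2)
        rw [this]
  · intro j n j' n' he
    have he' := Option.some.inj he
    exact ⟨congrArg Sigma.fst he', congrArg (fun p : (Σ j : J, ℕ × Cn r h j) => p.2.1) he'⟩
  · intro j n γ
    have h1 := hL.emb γ (Cn r h j) (X j) (fun a b => r j a.1 b.1) (r j) Subtype.val univ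
      {z | r j (h j) z} Subtype.val_injective (fun _ _ => Iff.rfl) (fun x _ => x.2)
      (fun y hy => ⟨⟨y, hy⟩, mem_univ _, rfl⟩) Unit (fun _ => ⟨h j, (hr j).refl _⟩)
    have h2 := hL.emb γ (Cn r h j) (YY r h) (fun a b => r j a.1 b.1) (S r h)
      (fun z => some ⟨j, n, z⟩) univ
      {y | S r h (some ⟨j, n, ⟨h j, (hr j).refl _⟩⟩) y}
      (by
        intro a b hab
        have hab' := Option.some.inj hab
        have h3 := eq_of_heq (Sigma.mk.inj hab').2
        exact (Prod.mk.inj h3).2)
      (fun a b => ⟨fun hab => .up j n a b hab, fun hab => by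
        cases hab with
        | up _ _ _ _ hz => exact hz⟩)
      (fun x _ => .up j n _ x x.2)
      (fun y hy => by
        have hy' : S r h (some ⟨j, n, ⟨h j, (hr j).refl _⟩⟩) y := hy
        cases hy' with
        | up _ _ _ z hz => exact ⟨z, mem_univ _, rfl⟩)
      Unit (fun _ => ⟨h j, (hr j).refl _⟩)
    exact ⟨h1.2.trans h2.1, h2.2.trans h1.1⟩

end Pool.Agent.W196.SR
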